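import Mathlib

/-!
# MP_5514a7_co, Q1: the consecutive pattern `1 3 2 4 5 … ℓ` is stable for every `ℓ ≥ 5`
-/

namespace Pool.Agent.Results.MP_5514a7_co.NonMonotoneStable

open Finset

/-- the words of length `m` over `{0, …, n-1}` with `k i` copies of the letter `i` -/
def words {n : ℕ} (m : ℕ) (k : Fin n → ℕ) : Set (Fin m → Fin n) :=
  {w | ∀ i, Set.ncard {x : Fin m | w x = i} = k i}

/-- `j` is an occurrence of the consecutive pattern `p` in the word `w`: the factor of length `ℓ`
starting at `j` is order-isomorphic to `p` -/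
def IsOcc {ℓ m n : ℕ} (p : Equiv.Perm (Fin ℓ)) (w : Fin m → Fin n) (j : ℕ) : Prop :=
  ∃ h : j + ℓ ≤ m, ∀ a b : Fin ℓ, w ⟨j + a, by omega⟩ < w ⟨j + b, by omega⟩ ↔ p a < p b

/-- the number of occurrences -/
noncomputable def occ {ℓ m n : ℕ} (p : Equiv.Perm (Fin ℓ)) (w : Fin m → Fin n) : ℕ :=
  Set.ncard {j : ℕ | IsOcc p w j}

/-- the pattern `p` is stable -/
def Stable {ℓ : ℕ} (p : Equiv.Perm (Fin ℓ)) : Prop :=
  ∀ n : ℕ, 1 ≤ n → ∀ (k : Fin n → ℕ) (σ : Equiv.Perm (Fin n)) (s : ℕ),
    Set.ncard {w | w ∈ words (∑ i, k i) k ∧ occ p w = s} =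
      Set.ncard {w | w ∈ words (∑ i, k (σ i)) (fun i => k (σ i)) ∧ occ p w = s}

/-- the pattern `p` is monotone: `1 2 ⋯ ℓ` or `ℓ ⋯ 2 1` -/
def Monotone' {ℓ : ℕ} (p : Equiv.Perm (Fin ℓ)) : Prop :=
  (∀ a, p a = a) ∨ ∀ a, p a = Fin.rev a

section local_facts

variable {r m n : ℕ}

/-- the pattern `1 3 2 4 5 …` of length `r + 5` -/
def pat (r : ℕ) : Equiv.Perm (Fin (r + 5)) := Equiv.swap 1 2

lemma pat_lt {a b : Fin (r + 5)} (hab : a < b) (h : ¬ (a.val = 1 ∧ b.val = 2)) :
    pat r a < pat r b := by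
  have h1 : (1 : Fin (r + 5)).val = 1 := by simp
  have h2 : (2 : Fin (r + 5)).val = 2 := by
    show 2 % (r + 5) = 2
    exact Nat.mod_eq_of_lt (by omega)
  have hval : ∀ c : Fin (r + 5), (pat r c).val = if c.val = 1 then 2 else if c.val = 2 then 1
      else c.val := by
    intro c
    unfold pat
    rw [Equiv.swap_apply_def]
    by_cases hc1 : c = 1
    · rw [if_pos hc1, if_pos (by rw [hc1, h1]), h2]
    · have hc1' : c.val ≠ 1 := fun h => hc1 (Fin.ext (by rw [h, h1]))
      rw [if_neg hc1, if_neg hc1']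
      by_cases hc2 : c = 2
      · rw [if_pos hc2, if_pos (by rw [hc2, h2]), h1]
      · have hc2' : c.val ≠ 2 := fun h => hc2 (Fin.ext (by rw [h, h2]))
        rw [if_neg hc2, if_neg hc2']
  rw [Fin.lt_def] at hab ⊢
  rw [hval, hval]
  split_ifs <;> omega

lemma pat_gt : pat r ⟨2, by omega⟩ < pat r ⟨1, by omega⟩ := by
  have h1 : (⟨1, by omega⟩ : Fin (r + 5)) = 1 := by
    apply Fin.ext; simp
  have h2 : (⟨2, by omega⟩ : Fin (r + 5)) = 2 := by
    apply Fin.ext
    show 2 = 2 % (r + 5)
    exact (Nat.mod_eq_of_lt (by omega)).symm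
  rw [h1, h2]
  unfold pat
  rw [Equiv.swap_apply_left, Equiv.swap_apply_right, ← h1, ← h2]
  rw [Fin.lt_def]
  norm_num

/-- order facts for an occurrence -/
lemma occ_lt {w : Fin m → Fin n} {j : ℕ} (h : IsOcc (pat r) w j) {x y : ℕ} (hx : j ≤ x)
    (hxy : x < y) (hy : y < j + (r + 5)) (hne : ¬ (x = j + 1 ∧ y = j + 2)) (hxm : x < m)
    (hym : y < m) : w ⟨x, hxm⟩ < w ⟨y, hym⟩ := by
  obtain ⟨hj, h⟩ := h
  have h1 := (h ⟨x - j, by omega⟩ ⟨y - j, by omega⟩).mpr (pat_lt (by
    rw [Fin.lt_def]; simp only; omega) (by simp only; omega))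
  have e1 : (⟨j + (⟨x - j, by omega⟩ : Fin (r + 5)).val, by simp only; omega⟩ : Fin m)
      = ⟨x, hxm⟩ := by
    apply Fin.ext; simp only; omega
  have e2 : (⟨j + (⟨y - j, by omega⟩ : Fin (r + 5)).val, by simp only; omega⟩ : Fin m)
      = ⟨y, hym⟩ := by
    apply Fin.ext; simp only; omega
  rwa [e1, e2] at h1

lemma occ_gt {w : Fin m → Fin n} {j : ℕ} (h : IsOcc (pat r) w j) (h1 : j + 1 < m)
    (h2 : j + 2 < m) : w ⟨j + 2, h2⟩ < w ⟨j + 1, h1⟩ := by
  obtain ⟨hj, h⟩ := h
  exact (h ⟨2, by omega⟩ ⟨1, by omega⟩).mpr pat_gt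

lemma occ_ne {w : Fin m → Fin n} {j : ℕ} (h : IsOcc (pat r) w j) {x y : ℕ} (hx : j ≤ x)
    (hxy : x < y) (hy : y < j + (r + 5)) (hxm : x < m)
    (hym : y < m) : w ⟨x, hxm⟩ ≠ w ⟨y, hym⟩ := by
  by_cases hne : x = j + 1 ∧ y = j + 2
  · obtain ⟨rfl, rfl⟩ := hne
    exact (occ_gt h hxm hym).ne'
  · exact (occ_lt h hx hxy hy hne hxm hym).ne

/-- positions `x`, `y` are connected by the windows starting in `J` -/
def Conn (r : ℕ) (J : Finset ℕ) (x y : ℕ) : Prop :=
  ∀ t, min x y ≤ t → t < max x y → ∃ a ∈ J, a ≤ t ∧ t + 1 < a + (r + 5)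

lemma Conn.refl (J : Finset ℕ) (x : ℕ) : Conn r J x x := by
  intro t h1 h2; simp at h1 h2; omega

lemma Conn.symm {J : Finset ℕ} {x y : ℕ} (h : Conn r J x y) : Conn r J y x := by
  intro t h1 h2
  exact h t (by rwa [min_comm]) (by rwa [max_comm])

lemma Conn.trans {J : Finset ℕ} {x y z : ℕ} (h : Conn r J x y) (h' : Conn r J y z) :
    Conn r J x z := by
  intro t h1 h2
  by_cases hc : min x y ≤ t ∧ t < max x y
  · exact h t hc.1 hc.2
  · apply h' t
    · rcases min_le_iff.mp h1 with h3 | h3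
      · rcases lt_max_iff.mp h2 with h4 | h4
        · omega
        · have : ¬ t < max x y := fun h5 => hc ⟨min_le_of_left_le h3, h5⟩
          rw [lt_max_iff] at this
          push Not at this
          exact min_le_of_left_le this.2
      · exact min_le_of_right_le h3
    · rcases min_le_iff.mp h1 with h3 | h3
      · rcases lt_max_iff.mp h2 with h4 | h4
        · omega
        · exact lt_max_of_lt_right h4
      · rcases lt_max_iff.mp h2 with h4 | h4
        · have : ¬ min x y ≤ t := fun h5 => hc ⟨h5, lt_max_of_lt_left h4⟩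
          rw [min_le_iff] at this
          push Not at this
          exact lt_max_of_lt_left this.2
        · exact lt_max_of_lt_right h4

/-- every position connected to and before the start `b` of a window has a smaller letter -/
lemma lt_start {w : Fin m → Fin n} {J : Finset ℕ} (hJ : ∀ j ∈ J, IsOcc (pat r) w j) :
    ∀ b ∈ J, ∀ p, p < b → Conn r J p b → ∀ (hp : p < m) (hb : b < m),
      w ⟨p, hp⟩ < w ⟨b, hb⟩ := by
  intro b
  induction b using Nat.strong_induction_on with
  | _ b ih =>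
    intro hbJ p hpb hconn hp hb
    obtain ⟨a, haJ, ha1, ha2⟩ := hconn (b - 1) (by omega) (by omega)
    have hocc := hJ a haJ
    have hoccb := hJ b hbJ
    -- the shift is at least `ℓ - 2`
    have hshift : a + (r + 5) - 2 ≤ b := by
      by_contra hcon
      push Not at hcon
      obtain ⟨hbm, -⟩ := hoccb
      have h1 := occ_gt (hJ b hbJ) (by omega) (by omega)
      have h2 := occ_lt hocc (x := b + 1) (y := b + 2) (by omega) (by omega) (by omega)
        (by omega) (by omega) (by omega)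
      exact absurd h1 (not_lt.mpr h2.le)
    rcases Nat.lt_or_ge p a with hpa | hpa
    · have h1 := ih a (by omega) haJ p hpa (by
        intro t ht1 ht2
        exact hconn t (by omega) (by omega)) hp (by omega)
      have h2 := occ_lt hocc (x := a) (y := b) (le_refl _) (by omega) (by omega) (by omega)
        (by omega) hb
      exact h1.trans h2
    · exact occ_lt hocc hpa hpb (by omega) (by omega) hp hb

/-- letters at connected positions are distinct -/
lemma conn_ne {w : Fin m → Fin n} {J : Finset ℕ} (hJ : ∀ j ∈ J, IsOcc (pat r) w j)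
    {x y : Fin m} (hxy : x ≠ y) (hconn : Conn r J x y) : w x ≠ w y := by
  have key : ∀ x y : Fin m, x < y → Conn r J x y → w x ≠ w y := by
    intro x y hlt hconn
    have hlt' : x.val < y.val := hlt
    obtain ⟨a, haJ, ha1, ha2⟩ := hconn (y.val - 1) (by omega) (by omega)
    have hocc := hJ a haJ
    rcases Nat.lt_or_ge x.val a with h | h
    · have h1 := lt_start hJ a haJ x.val h (by
        intro t ht1 ht2
        exact hconn t (by omega) (by omega)) x.isLt (by omega)
      rcases Nat.eq_or_lt_of_le (show a ≤ y.val by omega) with h2 | h2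
      · have h3 : (⟨a, by omega⟩ : Fin m) = y := Fin.ext h2
        rw [h3] at h1
        exact h1.ne
      · have h3 := occ_lt hocc (x := a) (y := y.val) (le_refl _) h2 (by omega) (by omega)
          (by omega) y.isLt
        exact (h1.trans h3).ne
    · exact occ_ne hocc h hlt' (by omega) x.isLt y.isLt
  rcases lt_or_gt_of_ne hxy with h | h
  · exact key x y h hconn
  · exact (key y x h hconn.symm).symm

end local_facts

section bijection

variable {r m n : ℕ}

/-- the component of `x` contains both letters `c` and `c'` -/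
def Both (r : ℕ) (J : Finset ℕ) (c c' : Fin n) (w : Fin m → Fin n) (x : Fin m) : Prop :=
  (∃ q : Fin m, Conn r J x q ∧ w q = c) ∧ ∃ q : Fin m, Conn r J x q ∧ w q = c'

lemma Both.of_conn {J : Finset ℕ} {c c' : Fin n} {w : Fin m → Fin n} {x y : Fin m}
    (h : Both r J c c' w x) (hxy : Conn r J x y) : Both r J c c' w y := by
  obtain ⟨⟨q, hq, hq'⟩, q₂, hq₂, hq₂'⟩ := h
  exact ⟨⟨q, hxy.symm.trans hq, hq'⟩, q₂, hxy.symm.trans hq₂, hq₂'⟩

open Classical in
/-- exchange the letters `c` and `c'` outside the components containing both -/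
noncomputable def phi (r : ℕ) (J : Finset ℕ) (c c' : Fin n) (w : Fin m → Fin n) : Fin m → Fin n :=
  fun x => if Both r J c c' w x then w x else Equiv.swap c c' (w x)

lemma phi_both {J : Finset ℕ} {c c' : Fin n} {w : Fin m → Fin n} {x : Fin m}
    (h : Both r J c c' w x) : phi r J c c' w x = w x := by
  unfold phi; rw [if_pos h]

lemma phi_not {J : Finset ℕ} {c c' : Fin n} {w : Fin m → Fin n} {x : Fin m}
    (h : ¬ Both r J c c' w x) : phi r J c c' w x = Equiv.swap c c' (w x) := by
  unfold phi; rw [if_neg h]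

lemma both_phi {J : Finset ℕ} {c c' : Fin n} {w : Fin m → Fin n} {x : Fin m} :
    Both r J c c' (phi r J c c' w) x ↔ Both r J c c' w x := by
  constructor
  · rintro ⟨⟨q, hq, hq'⟩, q₂, hq₂, hq₂'⟩
    by_cases h1 : Both r J c c' w q
    · exact h1.of_conn hq.symm
    · by_cases h2 : Both r J c c' w q₂
      · exact h2.of_conn hq₂.symm
      · rw [phi_not h1] at hq'
        rw [phi_not h2] at hq₂'
        refine ⟨⟨q₂, hq₂, ?_⟩, q, hq, ?_⟩
        · exact (Equiv.swap c c').injective (hq₂'.trans (Equiv.swap_apply_left c c').symm)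
        · exact (Equiv.swap c c').injective (hq'.trans (Equiv.swap_apply_right c c').symm)
  · intro h
    have h' := h
    obtain ⟨⟨q, hq, hq'⟩, q₂, hq₂, hq₂'⟩ := h
    refine ⟨⟨q, hq, ?_⟩, q₂, hq₂, ?_⟩
    · rw [phi_both (h'.of_conn hq), hq']
    · rw [phi_both (h'.of_conn hq₂), hq₂']

lemma phi_phi (J : Finset ℕ) (c c' : Fin n) (w : Fin m → Fin n) :
    phi r J c c' (phi r J c c' w) = w := by
  funext x
  by_cases h : Both r J c c' w x
  · rw [phi_both (both_phi.mpr h), phi_both h]
  · rw [phi_not (fun h' => h (both_phi.mp h')), phi_not h, Equiv.swap_apply_self]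

lemma swap_lt {c c' : Fin n} (hc : c.val + 1 = c'.val) {x y : Fin n}
    (h1 : ¬ (x = c ∧ y = c')) (h2 : ¬ (x = c' ∧ y = c)) :
    Equiv.swap c c' x < Equiv.swap c c' y ↔ x < y := by
  have hval : ∀ z : Fin n, (Equiv.swap c c' z).val = if z.val = c.val then c'.val else
      if z.val = c'.val then c.val else z.val := by
    intro z
    rw [Equiv.swap_apply_def]
    by_cases hz : z = c
    · rw [if_pos hz, if_pos (by rw [hz])]
    · rw [if_neg hz, if_neg (fun h => hz (Fin.ext h))]
      by_cases hz' : z = c'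
      · rw [if_pos hz', if_pos (by rw [hz'])]
      · rw [if_neg hz', if_neg (fun h => hz' (Fin.ext h))]
  rw [Fin.lt_def, Fin.lt_def, hval, hval]
  rw [Fin.ext_iff, Fin.ext_iff] at h1 h2
  split_ifs <;> omega

lemma phi_occ {J : Finset ℕ} {c c' : Fin n} (hc : c.val + 1 = c'.val) {w : Fin m → Fin n}
    {j : ℕ} (hj : j ∈ J) (h : IsOcc (pat r) w j) : IsOcc (pat r) (phi r J c c' w) j := by
  obtain ⟨hm, h⟩ := h
  refine ⟨hm, fun a b => ?_⟩
  rw [← h a b]
  have hconn : ∀ a b : Fin (r + 5), Conn r J (j + a.val) (j + b.val) := by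
    intro a b t h1 h2
    refine ⟨j, hj, ?_, ?_⟩
    · have := min_le_iff.mp h1
      omega
    · have := lt_max_iff.mp h2
      omega
  by_cases hB : Both r J c c' w ⟨j + a, by omega⟩
  · rw [phi_both hB, phi_both (hB.of_conn (hconn a b))]
  · have hB' : ¬ Both r J c c' w ⟨j + b, by omega⟩ := fun h' => hB (h'.of_conn (hconn b a))
    rw [phi_not hB, phi_not hB']
    apply swap_lt hc
    · rintro ⟨e1, e2⟩
      exact hB ⟨⟨_, Conn.refl _ _, e1⟩, ⟨j + b, by omega⟩, hconn a b, e2⟩
    · rintro ⟨e1, e2⟩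
      exact hB ⟨⟨⟨j + b, by omega⟩, hconn a b, e2⟩, _, Conn.refl _ _, e1⟩

lemma inj_bound {J : Finset ℕ} {c c' d d' : Fin n} {w : Fin m → Fin n}
    (hJ : ∀ j ∈ J, IsOcc (pat r) w j)
    (hd : ∀ x, Both r J c c' w x → ∃ q : Fin m, Conn r J x q ∧ w q = d') :
    Set.ncard {x : Fin m | Both r J c c' w x ∧ w x = d} ≤
      Set.ncard {x : Fin m | Both r J c c' w x ∧ w x = d'} := by
  choose! g hg using hd
  apply Set.ncard_le_ncard_of_injOn g
  · rintro x ⟨hx, -⟩
    exact ⟨hx.of_conn (hg x hx).1, (hg x hx).2⟩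
  · rintro x ⟨hx, hxd⟩ y ⟨hy, hyd⟩ hxy
    by_contra hne
    have h1 := (hg x hx).1
    have h2 := (hg y hy).1
    rw [← hxy] at h2
    exact conn_ne hJ hne (h1.trans h2.symm) (by rw [hxd, hyd])

lemma content_phi {J : Finset ℕ} {c c' : Fin n} {w : Fin m → Fin n}
    (hJ : ∀ j ∈ J, IsOcc (pat r) w j) (i : Fin n) :
    Set.ncard {x : Fin m | phi r J c c' w x = i} =
      Set.ncard {x : Fin m | w x = Equiv.swap c c' i} := by
  have hB : Set.ncard {x : Fin m | Both r J c c' w x ∧ w x = c} =
      Set.ncard {x : Fin m | Both r J c c' w x ∧ w x = c'} :=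
    le_antisymm (inj_bound hJ fun x hx => hx.2) (inj_bound hJ fun x hx => hx.1)
  have hsplit : ∀ e : Fin n, Set.ncard {x : Fin m | w x = e} =
      Set.ncard {x : Fin m | Both r J c c' w x ∧ w x = e} +
      Set.ncard {x : Fin m | ¬ Both r J c c' w x ∧ w x = e} := by
    intro e
    rw [← Set.ncard_union_eq _ (Set.toFinite _) (Set.toFinite _)]
    · congr 1
      ext x
      constructor
      · intro h
        by_cases hb : Both r J c c' w x
        · left; exact ⟨hb, h⟩
        · right; exact ⟨hb, h⟩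
      · rintro (⟨-, h⟩ | ⟨-, h⟩) <;> exact h
    · rw [Set.disjoint_left]
      rintro x ⟨h1, -⟩ ⟨h2, -⟩
      exact h2 h1
  have hsplit' : ∀ e : Fin n, Set.ncard {x : Fin m | phi r J c c' w x = e} =
      Set.ncard {x : Fin m | Both r J c c' w x ∧ w x = e} +
      Set.ncard {x : Fin m | ¬ Both r J c c' w x ∧ w x = Equiv.swap c c' e} := by
    intro e
    rw [← Set.ncard_union_eq _ (Set.toFinite _) (Set.toFinite _)]
    · congr 1
      ext x
      constructor
      · intro h
        change phi r J c c' w x = e at h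
        by_cases hb : Both r J c c' w x
        · left; rw [phi_both hb] at h; exact ⟨hb, h⟩
        · right
          rw [phi_not hb] at h
          refine ⟨hb, ?_⟩
          rw [← h, Equiv.swap_apply_self]
      · rintro (⟨hb, h⟩ | ⟨hb, h⟩)
        · show phi r J c c' w x = e
          rw [phi_both hb]; exact h
        · show phi r J c c' w x = e
          rw [phi_not hb, h, Equiv.swap_apply_self]
    · rw [Set.disjoint_left]
      rintro x ⟨h1, -⟩ ⟨h2, -⟩
      exact h2 h1
  rw [hsplit', hsplit]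
  congr 1
  by_cases h1 : i = c
  · rw [h1, Equiv.swap_apply_left]; exact hB
  · by_cases h2 : i = c'
    · rw [h2, Equiv.swap_apply_right]; exact hB.symm
    · rw [Equiv.swap_apply_of_ne_of_ne h1 h2]

/-- words with content `k` for which all positions in `J` are occurrences -/
def X (r : ℕ) {m n : ℕ} (k : Fin n → ℕ) (J : Finset ℕ) : Set (Fin m → Fin n) :=
  {w | w ∈ words m k ∧ ∀ j ∈ J, IsOcc (pat r) w j}

lemma X_le {c c' : Fin n} (hc : c.val + 1 = c'.val) (k : Fin n → ℕ) (J : Finset ℕ) :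
    Set.ncard (X (m := m) r k J) ≤ Set.ncard (X (m := m) r (fun i => k (Equiv.swap c c' i)) J) := by
  apply Set.ncard_le_ncard_of_injOn (phi r J c c')
  · rintro w ⟨hw, hJ⟩
    refine ⟨fun i => ?_, fun j hj => phi_occ hc hj (hJ j hj)⟩
    rw [content_phi hJ i]
    exact hw _
  · intro w _ w' _ h
    rw [← phi_phi (r := r) J c c' w, h, phi_phi]

lemma X_eq {c c' : Fin n} (hc : c.val + 1 = c'.val) (k : Fin n → ℕ) (J : Finset ℕ) :
    Set.ncard (X (m := m) r k J) = Set.ncard (X (m := m) r (fun i => k (Equiv.swap c c' i)) J) := by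
  apply le_antisymm (X_le hc k J)
  have := X_le (m := m) (r := r) hc (fun i => k (Equiv.swap c c' i)) J
  simpa using this

/-- the set of occurrences -/
noncomputable def OccSet (r : ℕ) {m n : ℕ} (w : Fin m → Fin n) : Finset ℕ := by
  classical exact (range m).filter (fun j => IsOcc (pat r) w j)

lemma mem_OccSet {w : Fin m → Fin n} {j : ℕ} : j ∈ OccSet r w ↔ IsOcc (pat r) w j := by
  classical
  unfold OccSet
  rw [mem_filter, mem_range]
  constructor
  · exact fun h => h.2
  · intro h
    refine ⟨?_, h⟩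
    obtain ⟨h, -⟩ := h
    omega

lemma occ_eq (w : Fin m → Fin n) : occ (pat r) w = (OccSet r w).card := by
  unfold occ
  rw [← Set.ncard_coe_finset]
  congr 1
  ext j
  rw [mem_coe, mem_OccSet]
  rfl

/-- words with content `k` and set of occurrences exactly `J` -/
def E (r : ℕ) {m n : ℕ} (k : Fin n → ℕ) (J : Finset ℕ) : Set (Fin m → Fin n) :=
  {w | w ∈ words m k ∧ OccSet r w = J}

lemma OccSet_sub (w : Fin m → Fin n) : OccSet r w ⊆ range m := by
  intro j hj
  rw [mem_OccSet] at hj
  obtain ⟨h, -⟩ := hj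
  rw [mem_range]; omega

lemma fiber_sum {α β : Type} [Finite α] (A : Set α) (f : α → β) (T : Finset β)
    (h : ∀ a ∈ A, f a ∈ T) : A.ncard = ∑ b ∈ T, Set.ncard {a | a ∈ A ∧ f a = b} := by
  classical
  have : Fintype α := Fintype.ofFinite α
  rw [Set.ncard_eq_toFinset_card' A]
  rw [Finset.card_eq_sum_card_fiberwise (f := f) (t := T) (fun a ha => h a (by simpa using ha))]
  apply Finset.sum_congr rfl
  intro b _
  rw [Set.ncard_eq_toFinset_card']
  congr 1
  ext a
  simp

lemma X_sum (k : Fin n → ℕ) (J : Finset ℕ) : Set.ncard (X (m := m) r k J) =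
    ∑ J' ∈ (range m).powerset with J ⊆ J', Set.ncard (E (m := m) r k J') := by
  rw [fiber_sum (X (m := m) r k J) (OccSet r) ((range m).powerset.filter (J ⊆ ·)) (by
    rintro w ⟨-, hJ⟩
    rw [mem_filter, mem_powerset]
    exact ⟨OccSet_sub w, fun j hj => mem_OccSet.mpr (hJ j hj)⟩)]
  apply Finset.sum_congr rfl
  intro J' hJ'
  rw [mem_filter] at hJ'
  congr 1
  ext w
  constructor
  · rintro ⟨⟨hw, -⟩, h⟩; exact ⟨hw, h⟩
  · rintro ⟨hw, h⟩
    refine ⟨⟨hw, fun j hj => ?_⟩, h⟩
    apply mem_OccSet.mp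
    rw [h]; exact hJ'.2 hj

lemma E_eq {k k' : Fin n → ℕ}
    (hX : ∀ J, Set.ncard (X (m := m) r k J) = Set.ncard (X (m := m) r k' J)) :
    ∀ (t : ℕ) (J : Finset ℕ), J ⊆ range m → m - J.card = t →
      Set.ncard (E (m := m) r k J) = Set.ncard (E (m := m) r k' J) := by
  intro t
  induction t using Nat.strong_induction_on with
  | _ t ih =>
    intro J hJ ht
    have h1 := hX J
    rw [X_sum, X_sum] at h1
    have hmem : J ∈ (range m).powerset.filter (J ⊆ ·) := by
      rw [mem_filter, mem_powerset]; exact ⟨hJ, subset_refl _⟩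
    rw [← Finset.add_sum_erase _ _ hmem, ← Finset.add_sum_erase _ _ hmem] at h1
    have h2 : ∑ J' ∈ ((range m).powerset.filter (J ⊆ ·)).erase J, Set.ncard (E (m := m) r k J')
        = ∑ J' ∈ ((range m).powerset.filter (J ⊆ ·)).erase J, Set.ncard (E (m := m) r k' J') := by
      apply Finset.sum_congr rfl
      intro J' hJ'
      rw [mem_erase, mem_filter, mem_powerset] at hJ'
      obtain ⟨hne, hsub, hJJ'⟩ := hJ'
      have h3 : J.card < J'.card := Finset.card_lt_card (Finset.ssubset_iff_subset_ne.mpr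
        ⟨hJJ', fun h => hne h.symm⟩)
      have h4 : J'.card ≤ m := by simpa using Finset.card_le_card hsub
      exact ih (m - J'.card) (by omega) J' hsub rfl
    omega

/-- number of words of length `m` with content `k` and `s` occurrences -/
lemma count_eq {k k' : Fin n → ℕ}
    (hX : ∀ J, Set.ncard (X (m := m) r k J) = Set.ncard (X (m := m) r k' J)) (s : ℕ) :
    Set.ncard {w | w ∈ words m k ∧ occ (pat r) w = s} =
      Set.ncard {w | w ∈ words m k' ∧ occ (pat r) w = s} := by
  have key : ∀ k : Fin n → ℕ, Set.ncard {w | w ∈ words m k ∧ occ (pat r) w = s} =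
      ∑ J ∈ (range m).powerset.filter (fun J => J.card = s), Set.ncard (E (m := m) r k J) := by
    intro k
    rw [fiber_sum {w | w ∈ words m k ∧ occ (pat r) w = s} (OccSet r)
      ((range m).powerset.filter (fun J => J.card = s)) (by
        rintro w ⟨-, hs⟩
        rw [mem_filter, mem_powerset]
        exact ⟨OccSet_sub w, by rw [← occ_eq]; exact hs⟩)]
    apply Finset.sum_congr rfl
    intro J hJ
    rw [mem_filter] at hJ
    congr 1
    ext w
    constructor
    · rintro ⟨⟨hw, -⟩, h⟩; exact ⟨hw, h⟩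
    · rintro ⟨hw, h⟩
      exact ⟨⟨hw, by rw [occ_eq, h]; exact hJ.2⟩, h⟩
  rw [key, key]
  apply Finset.sum_congr rfl
  intro J hJ
  rw [mem_filter, mem_powerset] at hJ
  exact E_eq hX _ J hJ.1 rfl

end bijection

/-- the pattern `1 3 2 4 5 … ℓ`, `ℓ = r + 5`, is stable -/
lemma stable_pat (r : ℕ) : Stable (pat r) := by
  intro n hn
  obtain ⟨n, rfl⟩ : ∃ n', n = n' + 1 := ⟨n - 1, by omega⟩
  -- invariance under all permutations, at fixed length
  have key : ∀ (σ : Equiv.Perm (Fin (n + 1))) (k : Fin (n + 1) → ℕ) (m s : ℕ),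
      Set.ncard {w | w ∈ words m k ∧ occ (pat r) w = s} =
        Set.ncard {w | w ∈ words m (fun i => k (σ i)) ∧ occ (pat r) w = s} := by
    intro σ
    have hσ : σ ∈ Submonoid.closure (Set.range fun i : Fin n =>
        Equiv.swap i.castSucc i.succ) := by
      rw [Equiv.Perm.mclosure_swap_castSucc_succ]; trivial
    induction hσ using Submonoid.closure_induction with
    | mem x hx =>
      obtain ⟨i, rfl⟩ := hx
      intro k m s
      apply count_eq
      intro J
      apply X_eq
      simp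
    | one => intro k m s; rfl
    | mul x y _ _ hx hy =>
      intro k m s
      rw [hx k m s, hy (fun i => k (x i)) m s]
      rfl
  intro k σ s
  rw [Equiv.sum_comp σ k]
  exact key σ k _ s

/-- Q1 is false: for every length `ℓ ≥ 5` the non-monotone consecutive pattern
`1 3 2 4 5 … ℓ` (the transposition of the second and third values) is stable. -/
theorem result (r : ℕ) : ¬ Monotone' (Equiv.swap (1 : Fin (r + 5)) 2) ∧
    Stable (Equiv.swap (1 : Fin (r + 5)) 2) := by
  refine ⟨?_, stable_pat r⟩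
  have h1 : (1 : Fin (r + 5)).val = 1 := by simp
  have h2 : (2 : Fin (r + 5)).val = 2 := by
    show 2 % (r + 5) = 2
    exact Nat.mod_eq_of_lt (by omega)
  rintro (h | h)
  · have h3 := h 1
    rw [Equiv.swap_apply_left] at h3
    have := congrArg Fin.val h3
    omega
  · have h3 := h 1
    rw [Equiv.swap_apply_left] at h3
    have := congrArg Fin.val h3
    rw [Fin.val_rev] at this
    omega

end Pool.Agent.Results.MP_5514a7_co.NonMonotoneStable
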